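import Mathlib

/-! # Groups of matrices in `SL₂` with integral traces

If `H` is a group of matrices in `SL₂(A)` with traces in `ℤ`, `A → ℚ` a homomorphism, `A` contained
in a field `K` such that `χ = ± 1` for all `χ` in `K` with `χ + χ⁻¹` in `ℤ`, then `H` is
commutative or isomorphic to a subgroup of `SL₂(ℤ)`. -/

set_option autoImplicit false
set_option linter.unusedSectionVars false
set_option linter.unusedVariables false

namespace Pool.Agent.NegK.NT.H22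

universe u v w

open Matrix (SpecialLinearGroup)

section entries

variable {F : Type u} [CommRing F]

/-- The trace. -/
def tr (g : SpecialLinearGroup (Fin 2) F) : F := g 0 0 + g 1 1

theorem tr_eq (g : SpecialLinearGroup (Fin 2) F) :
    Matrix.trace (g : Matrix (Fin 2) (Fin 2) F) = tr g := Matrix.trace_fin_two _

theorem det2 (g : SpecialLinearGroup (Fin 2) F) : g 0 0 * g 1 1 - g 0 1 * g 1 0 = 1 := by
  have h : (g : Matrix (Fin 2) (Fin 2) F).det = 1 := g.2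
  rw [Matrix.det_fin_two] at h
  exact h

theorem mulE (g h : SpecialLinearGroup (Fin 2) F) (i j : Fin 2) :
    (g * h) i j = g i 0 * h 0 j + g i 1 * h 1 j := by
  have : (g * h) i j = ((g : Matrix (Fin 2) (Fin 2) F) * (h : Matrix (Fin 2) (Fin 2) F)) i j := rfl
  rw [this, Matrix.mul_apply, Fin.sum_univ_two]

theorem inv00 (g : SpecialLinearGroup (Fin 2) F) : g⁻¹ 0 0 = g 1 1 := by
  rw [Matrix.SpecialLinearGroup.SL2_inv_expl]; rfl

theorem inv01 (g : SpecialLinearGroup (Fin 2) F) : g⁻¹ 0 1 = -g 0 1 := by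
  rw [Matrix.SpecialLinearGroup.SL2_inv_expl]; rfl

theorem inv10 (g : SpecialLinearGroup (Fin 2) F) : g⁻¹ 1 0 = -g 1 0 := by
  rw [Matrix.SpecialLinearGroup.SL2_inv_expl]; rfl

theorem inv11 (g : SpecialLinearGroup (Fin 2) F) : g⁻¹ 1 1 = g 0 0 := by
  rw [Matrix.SpecialLinearGroup.SL2_inv_expl]; rfl

theorem ext2 {g h : SpecialLinearGroup (Fin 2) F} (h1 : g 0 0 = h 0 0) (h2 : g 0 1 = h 0 1)
    (h3 : g 1 0 = h 1 0) (h4 : g 1 1 = h 1 1) : g = h := by
  refine (Matrix.SpecialLinearGroup.ext_iff _ _).2 fun i j => ?_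
  fin_cases i <;> fin_cases j
  · exact h1
  · exact h2
  · exact h3
  · exact h4

theorem one00 : (1 : SpecialLinearGroup (Fin 2) F) 0 0 = 1 := rfl

theorem one01 : (1 : SpecialLinearGroup (Fin 2) F) 0 1 = 0 := rfl

theorem one10 : (1 : SpecialLinearGroup (Fin 2) F) 1 0 = 0 := rfl

theorem one11 : (1 : SpecialLinearGroup (Fin 2) F) 1 1 = 1 := rfl

theorem tr_one : tr (1 : SpecialLinearGroup (Fin 2) F) = 2 := by
  rw [tr, one00, one11]; norm_num

/-- The determinant of `1, a, b, ab`. -/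
def dd (a b : SpecialLinearGroup (Fin 2) F) : F :=
  (a 0 0 - a 1 1) * ((b 1 0) * ((a * b) 0 1) - (b 0 1) * ((a * b) 1 0)) -
    (a 1 0) * ((b 0 0 - b 1 1) * ((a * b) 0 1) - (b 0 1) * ((a * b) 0 0 - (a * b) 1 1)) +
    (a 0 1) * ((b 0 0 - b 1 1) * ((a * b) 1 0) - (b 1 0) * ((a * b) 0 0 - (a * b) 1 1))

theorem dd_eq (a b : SpecialLinearGroup (Fin 2) F) : dd a b = 2 - tr (a * b * a⁻¹ * b⁻¹) := by
  have ha := det2 a
  have hb := det2 b
  have h2 : (2 : F) = 2 * (a 0 0 * a 1 1 - a 0 1 * a 1 0) * (b 0 0 * b 1 1 - b 0 1 * b 1 0) := by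
    rw [ha, hb]; ring
  rw [h2, tr, dd]
  simp only [mulE, inv00, inv01, inv10, inv11]
  ring

end entries

/-- Solution of the linear system. -/
theorem cramer {F : Type u} [CommRing F] (a b : SpecialLinearGroup (Fin 2) F)
    (x₁ x₂ x₃ x₄ t₁ t₂ t₃ t₄ : F) (e₁ : x₁ + x₄ = t₁)
    (e₂ : x₁ * a 0 0 + x₂ * a 1 0 + x₃ * a 0 1 + x₄ * a 1 1 = t₂)
    (e₃ : x₁ * b 0 0 + x₂ * b 1 0 + x₃ * b 0 1 + x₄ * b 1 1 = t₃)
    (e₄ : x₁ * (a * b) 0 0 + x₂ * (a * b) 1 0 + x₃ * (a * b) 0 1 + x₄ * (a * b) 1 1 = t₄) :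
    dd a b * x₁ =
      (b 1 0 * (a * b) 0 1 - b 0 1 * (a * b) 1 0) * (t₂ - a 1 1 * t₁) +
      ((a * b) 1 0 * a 0 1 - (a * b) 0 1 * a 1 0) * (t₃ - b 1 1 * t₁) +
      (a 1 0 * b 0 1 - a 0 1 * b 1 0) * (t₄ - (a * b) 1 1 * t₁) ∧
    dd a b * x₂ =
      (b 0 1 * ((a * b) 0 0 - (a * b) 1 1) - (b 0 0 - b 1 1) * (a * b) 0 1) * (t₂ - a 1 1 * t₁) +
      ((a * b) 0 1 * (a 0 0 - a 1 1) - ((a * b) 0 0 - (a * b) 1 1) * a 0 1) *
        (t₃ - b 1 1 * t₁) +
      (a 0 1 * (b 0 0 - b 1 1) - (a 0 0 - a 1 1) * b 0 1) * (t₄ - (a * b) 1 1 * t₁) ∧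
    dd a b * x₃ =
      ((b 0 0 - b 1 1) * (a * b) 1 0 - b 1 0 * ((a * b) 0 0 - (a * b) 1 1)) * (t₂ - a 1 1 * t₁) +
      (((a * b) 0 0 - (a * b) 1 1) * a 1 0 - (a * b) 1 0 * (a 0 0 - a 1 1)) *
        (t₃ - b 1 1 * t₁) +
      ((a 0 0 - a 1 1) * b 1 0 - a 1 0 * (b 0 0 - b 1 1)) * (t₄ - (a * b) 1 1 * t₁) := by
  subst e₁ e₂ e₃ e₄
  refine ⟨?_, ?_, ?_⟩ <;> rw [dd] <;> ring

theorem nondeg {F : Type u} [Field F] (a b : SpecialLinearGroup (Fin 2) F)
    (h : tr (a * b * a⁻¹ * b⁻¹) ≠ 2) (x₁ x₂ x₃ x₄ : F) (e₁ : x₁ + x₄ = 0)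
    (e₂ : x₁ * a 0 0 + x₂ * a 1 0 + x₃ * a 0 1 + x₄ * a 1 1 = 0)
    (e₃ : x₁ * b 0 0 + x₂ * b 1 0 + x₃ * b 0 1 + x₄ * b 1 1 = 0)
    (e₄ : x₁ * (a * b) 0 0 + x₂ * (a * b) 1 0 + x₃ * (a * b) 0 1 + x₄ * (a * b) 1 1 = 0) :
    x₁ = 0 ∧ x₂ = 0 ∧ x₃ = 0 ∧ x₄ = 0 := by
  obtain ⟨h1, h2, h3⟩ := cramer a b x₁ x₂ x₃ x₄ 0 0 0 0 e₁ e₂ e₃ e₄
  have hD : dd a b ≠ 0 := by
    rw [dd_eq]
    intro h0
    exact h (sub_eq_zero.1 h0).symm
  simp only [mul_zero, sub_zero, add_zero] at h1 h2 h3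
  have k1 := (mul_eq_zero.1 h1).resolve_left hD
  refine ⟨k1, (mul_eq_zero.1 h2).resolve_left hD, (mul_eq_zero.1 h3).resolve_left hD, ?_⟩
  rw [k1, zero_add] at e₁
  exact e₁

/-! ### Commuting -/

theorem form_of {K : Type u} [Field K] (α β γ p q r s : K) (h0 : α ^ 2 + β * γ = 0)
    (hn : β ≠ 0 ∨ γ ≠ 0) (hd : p * s - q * r = 1) (ht : α * (p - s) + β * r + γ * q = 0)
    (hK : ∀ χ : K, χ ≠ 0 → χ + χ⁻¹ = p + s → χ = 1 ∨ χ = -1) :
    ∃ ε k : K, p = ε + k * α ∧ q = k * β ∧ r = k * γ ∧ s = ε - k * α := by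
  by_cases hβ : β = 0
  · have hγ : γ ≠ 0 := hn.resolve_left (fun h => h hβ)
    rw [hβ, zero_mul, add_zero] at h0
    have hα : α = 0 := pow_eq_zero_iff (two_ne_zero) |>.1 h0
    rw [hα, hβ, zero_mul, zero_mul, zero_add, zero_add] at ht
    have hq : q = 0 := (mul_eq_zero.1 ht).resolve_left hγ
    rw [hq, zero_mul, sub_zero] at hd
    have hp : p ≠ 0 := left_ne_zero_of_mul_eq_one hd
    have hs : s = p⁻¹ := eq_inv_of_mul_eq_one_right hd
    have h1 := hK p hp (by rw [hs])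
    have h2 : s = p := by
      rcases h1 with h1 | h1
      · rw [hs, h1, inv_one]
      · rw [hs, h1, inv_neg, inv_one]
    refine ⟨p, r / γ, ?_, ?_, ?_, ?_⟩
    · rw [hα]; ring
    · rw [hβ, hq]; ring
    · field_simp
    · rw [hα, h2]; ring
  · have h1 : (p - q * α / β) * (s + q * α / β) = 1 := by
      have : β ^ 2 * ((p - q * α / β) * (s + q * α / β)) = β ^ 2 := by
        have e : β ^ 2 * ((p - q * α / β) * (s + q * α / β)) =
          (β * p - q * α) * (β * s + q * α) := by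
          field_simp
        rw [e]
        linear_combination β ^ 2 * hd + q * β * ht - q ^ 2 * h0
      exact mul_left_cancel₀ (pow_ne_zero 2 hβ) (by rw [this, mul_one])
    have hp : p - q * α / β ≠ 0 := left_ne_zero_of_mul_eq_one h1
    have hs : s + q * α / β = (p - q * α / β)⁻¹ := eq_inv_of_mul_eq_one_right h1
    have h2 := hK _ hp (by rw [← hs]; ring)
    obtain ⟨ε, hε⟩ : ∃ ε, p - q * α / β = ε := ⟨_, rfl⟩
    have h3 : s + q * α / β = ε := by
      rw [hs, ← hε]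
      rcases h2 with h2 | h2
      · rw [h2, inv_one]
      · rw [h2, inv_neg, inv_one]
    have hp' : p = ε + q / β * α := by rw [← hε]; ring
    have hs' : s = ε - q / β * α := by rw [← h3]; ring
    refine ⟨ε, q / β, hp', ?_, ?_, hs'⟩
    · field_simp
    · have : β * (β * r) = β * (q * γ) := by
        have h4 : β * (p - s) = 2 * q * α := by
          rw [hp', hs']
          field_simp
          ring
        linear_combination β * ht - α * h4 - 2 * q * h0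
      have := mul_left_cancel₀ hβ this
      field_simp
      linear_combination this

/-- The trace of the commutator with `1 + n`. -/
theorem tr_comm_uni {K : Type u} [CommRing K] (c h : SpecialLinearGroup (Fin 2) K) (α : K)
    (h1 : c 0 0 = 1 + α) (h2 : c 1 1 = 1 - α) :
    tr (c * h * c⁻¹ * h⁻¹) = 2 + (α * (h 0 0 - h 1 1) + c 0 1 * h 1 0 + c 1 0 * h 0 1) ^ 2 := by
  have hc := det2 c
  have hh := det2 h
  rw [h1, h2] at hc
  rw [tr]
  simp only [mulE, inv00, inv01, inv10, inv11, h1, h2]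
  linear_combination 2 * hh - (h 0 0 ^ 2 + 2 * h 0 1 * h 1 0 + h 1 1 ^ 2) * (-hc) 

/-- If all commutators have the trace `2` then the group is commutative. -/
theorem comm_of {H : Type u} [Group H] {K : Type v} [Field K] (φ : H →* SpecialLinearGroup (Fin 2) K)
    (hφ : Function.Injective φ) (ht : ∀ h, ∃ t : ℤ, tr (φ h) = t)
    (hK : ∀ χ : K, χ ≠ 0 → (∃ t : ℤ, χ + χ⁻¹ = t) → χ = 1 ∨ χ = -1)
    (hc : ∀ x y : H, tr (φ (x * y * x⁻¹ * y⁻¹)) = 2) (x y : H) : x * y = y * x := by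
  by_contra hne
  obtain ⟨c, hcd⟩ : ∃ c, x * y * x⁻¹ * y⁻¹ = c := ⟨_, rfl⟩
  have hc1 : c ≠ 1 := by
    intro h
    apply hne
    rw [h] at hcd
    have h1 : x * y * x⁻¹ = y := mul_inv_eq_one.1 hcd
    exact mul_inv_eq_iff_eq_mul.1 h1
  have hc2 : φ c ≠ 1 := fun h => hc1 (hφ (h.trans (map_one φ).symm))
  have htc : tr (φ c) = 2 := by rw [← hcd]; exact hc x y
  obtain ⟨α, hα⟩ : ∃ α, φ c 0 0 - 1 = α := ⟨_, rfl⟩
  have h00 : φ c 0 0 = 1 + α := by rw [← hα]; ring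
  have h11 : φ c 1 1 = 1 - α := by
    rw [tr] at htc
    linear_combination htc - h00
  have h0 : α ^ 2 + φ c 0 1 * φ c 1 0 = 0 := by
    have := det2 (φ c)
    rw [h00, h11] at this
    linear_combination -this
  have hn : φ c 0 1 ≠ 0 ∨ φ c 1 0 ≠ 0 := by
    by_contra h
    rw [not_or, not_not, not_not] at h
    rw [h.1, h.2, mul_zero, add_zero] at h0
    have hα0 : α = 0 := pow_eq_zero_iff (two_ne_zero) |>.1 h0
    apply hc2
    refine ext2 ?_ ?_ ?_ ?_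
    · rw [h00, hα0, add_zero, one00]
    · rw [h.1, one01]
    · rw [h.2, one10]
    · rw [h11, hα0, sub_zero, one11]
  have key : ∀ h : H, ∃ ε k : K, φ h 0 0 = ε + k * α ∧ φ h 0 1 = k * φ c 0 1 ∧
      φ h 1 0 = k * φ c 1 0 ∧ φ h 1 1 = ε - k * α := by
    intro h
    refine form_of α (φ c 0 1) (φ c 1 0) _ _ _ _ h0 hn (det2 (φ h)) ?_ ?_
    · have h1 := hc c h
      rw [map_mul, map_mul, map_mul, map_inv, map_inv, tr_comm_uni (φ c) (φ h) α h00 h11] at h1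
      have h2 : (α * (φ h 0 0 - φ h 1 1) + φ c 0 1 * φ h 1 0 + φ c 1 0 * φ h 0 1) ^ 2 = 0 := by
        linear_combination h1
      exact pow_eq_zero_iff (two_ne_zero) |>.1 h2
    · intro χ hχ h1
      obtain ⟨t, h2⟩ := ht h
      exact hK χ hχ ⟨t, h1.trans h2⟩
  apply hne
  apply hφ
  obtain ⟨ε, k, a1, a2, a3, a4⟩ := key x
  obtain ⟨ε', k', b1, b2, b3, b4⟩ := key y
  rw [map_mul, map_mul]
  refine ext2 ?_ ?_ ?_ ?_ <;> simp only [mulE, a1, a2, a3, a4, b1, b2, b3, b4] <;> ring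

/-! ### Bounded denominators -/

/-- The values of `f` have bounded denominators. -/
def Bd {X : Type u} (f : X → ℚ) : Prop := ∃ N : ℤ, N ≠ 0 ∧ ∀ x, ∃ m : ℤ, N * f x = m

theorem Bd.int {X : Type u} {f : X → ℚ} (h : ∀ x, ∃ m : ℤ, f x = m) : Bd f :=
  ⟨1, one_ne_zero, fun x => by
    obtain ⟨m, hm⟩ := h x
    exact ⟨m, by rw [hm]; push_cast; ring⟩⟩

theorem Bd.add {X : Type u} {f g : X → ℚ} (hf : Bd f) (hg : Bd g) : Bd (fun x => f x + g x) := by
  obtain ⟨N, hN, h⟩ := hf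
  obtain ⟨M, hM, h'⟩ := hg
  refine ⟨N * M, mul_ne_zero hN hM, fun x => ?_⟩
  obtain ⟨m, hm⟩ := h x
  obtain ⟨m', hm'⟩ := h' x
  refine ⟨m * M + m' * N, ?_⟩
  push_cast
  linear_combination (M : ℚ) * hm + (N : ℚ) * hm'

theorem Bd.mul {X : Type u} {f : X → ℚ} (hf : Bd f) (q : ℚ) : Bd (fun x => q * f x) := by
  obtain ⟨N, hN, h⟩ := hf
  refine ⟨q.den * N, mul_ne_zero (by exact_mod_cast q.den_nz) hN, fun x => ?_⟩
  obtain ⟨m, hm⟩ := h x
  refine ⟨q.num * m, ?_⟩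
  have hq : (q.den : ℚ) * q = q.num := by
    rw [mul_comm]
    exact Rat.mul_den_eq_num q
  push_cast
  linear_combination (q.den * q : ℚ) * hm + (m : ℚ) * hq

theorem Bd.congr {X : Type u} {f g : X → ℚ} (hf : Bd f) (h : ∀ x, g x = f x) : Bd g := by
  have : g = f := funext h
  rw [this]
  exact hf

theorem Bd.common {X : Type u} {f g : X → ℚ} (hf : Bd f) (hg : Bd g) :
    ∃ N : ℤ, N ≠ 0 ∧ (∀ x, ∃ m : ℤ, N * f x = m) ∧ ∀ x, ∃ m : ℤ, N * g x = m := by
  obtain ⟨N, hN, h⟩ := hf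
  obtain ⟨M, hM, h'⟩ := hg
  refine ⟨N * M, mul_ne_zero hN hM, fun x => ?_, fun x => ?_⟩
  · obtain ⟨m, hm⟩ := h x
    exact ⟨m * M, by push_cast; linear_combination (M : ℚ) * hm⟩
  · obtain ⟨m, hm⟩ := h' x
    exact ⟨m * N, by push_cast; linear_combination (N : ℚ) * hm⟩

/-- Bounded denominators of the matrices of a group with integral traces which is not
triangular. -/
theorem bounded {H : Type u} [Group H] (ρ : H →* SpecialLinearGroup (Fin 2) ℚ)
    (ht : ∀ h, ∃ t : ℤ, tr (ρ h) = t) (x y : H) (hxy : tr (ρ (x * y * x⁻¹ * y⁻¹)) ≠ 2)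
    (i j : Fin 2) : Bd (fun h => ρ h i j) := by
  have hD : dd (ρ x) (ρ y) ≠ 0 := by
    rw [dd_eq]
    intro h0
    rw [map_mul, map_mul, map_mul, map_inv, map_inv] at hxy
    exact hxy (sub_eq_zero.1 h0).symm
  have T1 : Bd (fun h => tr (ρ h)) := Bd.int ht
  have T2 : Bd (fun h => tr (ρ (h * x))) := Bd.int fun h => ht _
  have T3 : Bd (fun h => tr (ρ (h * y))) := Bd.int fun h => ht _
  have T4 : Bd (fun h => tr (ρ (h * (x * y)))) := Bd.int fun h => ht _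
  have hcr := fun h : H => cramer (ρ x) (ρ y) (ρ h 0 0) (ρ h 0 1) (ρ h 1 0) (ρ h 1 1)
    (tr (ρ h)) (tr (ρ (h * x))) (tr (ρ (h * y))) (tr (ρ (h * (x * y)))) rfl
    (by rw [map_mul, tr, mulE, mulE]; ring) (by rw [map_mul, tr, mulE, mulE]; ring)
    (by rw [map_mul, map_mul, tr, mulE (ρ h), mulE (ρ h)]; ring)
  have gen : ∀ (f : H → ℚ) (c₂ c₃ c₄ d₂ d₃ d₄ : ℚ), (∀ h, dd (ρ x) (ρ y) * f h =
      c₂ * (tr (ρ (h * x)) - d₂ * tr (ρ h)) + c₃ * (tr (ρ (h * y)) - d₃ * tr (ρ h)) +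
      c₄ * (tr (ρ (h * (x * y))) - d₄ * tr (ρ h))) → Bd f := by
    intro f c₂ c₃ c₄ d₂ d₃ d₄ hf
    have h1 : Bd (fun h => c₂ * tr (ρ (h * x)) + (c₃ * tr (ρ (h * y)) +
        (c₄ * tr (ρ (h * (x * y))) + -(c₂ * d₂ + c₃ * d₃ + c₄ * d₄) * tr (ρ h)))) :=
      (T2.mul c₂).add ((T3.mul c₃).add ((T4.mul c₄).add (T1.mul _)))
    refine (h1.mul (dd (ρ x) (ρ y))⁻¹).congr fun h => ?_
    rw [eq_inv_mul_iff_mul_eq₀ hD, hf]
    ring
  have b00 : Bd (fun h => ρ h 0 0) := gen _ _ _ _ _ _ _ fun h => (hcr h).1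
  have b01 : Bd (fun h => ρ h 0 1) := gen _ _ _ _ _ _ _ fun h => (hcr h).2.1
  have b10 : Bd (fun h => ρ h 1 0) := gen _ _ _ _ _ _ _ fun h => (hcr h).2.2
  have b11 : Bd (fun h => ρ h 1 1) := (T1.add (b00.mul (-1))).congr fun h => by
    show ρ h 1 1 = tr (ρ h) + -1 * ρ h 0 0
    rw [tr]; ring
  fin_cases i <;> fin_cases j
  · exact b00
  · exact b01
  · exact b10
  · exact b11

/-! ### The lattice -/

section lattice

variable {H : Type u} [Group H] (ρ : H →* SpecialLinearGroup (Fin 2) ℚ)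

/-- The largest stable sublattice of `ℤ²`. -/
def Lat : Submodule ℤ (Fin 2 → ℤ) where
  carrier := {v | ∀ h i, ∃ m : ℤ, ρ h i 0 * (v 0 : ℚ) + ρ h i 1 * (v 1 : ℚ) = m}
  add_mem' := by
    intro v w hv hw h i
    obtain ⟨m, hm⟩ := hv h i
    obtain ⟨m', hm'⟩ := hw h i
    refine ⟨m + m', ?_⟩
    rw [Pi.add_apply, Pi.add_apply]
    push_cast
    linear_combination hm + hm'
  zero_mem' := fun h i => ⟨0, by simp⟩
  smul_mem' := by
    intro c v hv h i
    obtain ⟨m, hm⟩ := hv h i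
    refine ⟨c * m, ?_⟩
    rw [Pi.smul_apply, Pi.smul_apply, smul_eq_mul, smul_eq_mul]
    push_cast
    linear_combination (c : ℚ) * hm

theorem exists_act (h : H) (v : Lat ρ) : ∃ w : Lat ρ, ∀ i,
    ((w : Fin 2 → ℤ) i : ℚ) = ρ h i 0 * ((v : Fin 2 → ℤ) 0 : ℚ) +
      ρ h i 1 * ((v : Fin 2 → ℤ) 1 : ℚ) := by
  obtain ⟨v, hv⟩ := v
  choose m hm using fun i => hv h i
  refine ⟨⟨m, fun h' i => ?_⟩, fun i => (hm i).symm⟩
  obtain ⟨l, hl⟩ := hv (h' * h) i
  refine ⟨l, ?_⟩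
  rw [map_mul, mulE, mulE] at hl
  rw [← hm 0, ← hm 1, ← hl]
  ring

theorem lat_ext {v w : Lat ρ} (h : ∀ i, ((v : Fin 2 → ℤ) i : ℚ) = ((w : Fin 2 → ℤ) i : ℚ)) :
    v = w := by
  apply Subtype.ext
  funext i
  exact_mod_cast h i

/-- The action on the lattice. -/
noncomputable def actF (h : H) (v : Lat ρ) : Lat ρ := (exists_act ρ h v).choose

theorem actF_apply (h : H) (v : Lat ρ) (i : Fin 2) :
    ((actF ρ h v : Fin 2 → ℤ) i : ℚ) = ρ h i 0 * ((v : Fin 2 → ℤ) 0 : ℚ) +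
      ρ h i 1 * ((v : Fin 2 → ℤ) 1 : ℚ) := (exists_act ρ h v).choose_spec i

theorem coe_add' (v w : Lat ρ) (i : Fin 2) : (((v + w : Lat ρ) : Fin 2 → ℤ) i : ℚ) =
    ((v : Fin 2 → ℤ) i : ℚ) + ((w : Fin 2 → ℤ) i : ℚ) := by
  rw [Submodule.coe_add, Pi.add_apply, Int.cast_add]

theorem coe_smul' (c : ℤ) (v : Lat ρ) (i : Fin 2) : (((c • v : Lat ρ) : Fin 2 → ℤ) i : ℚ) =
    (c : ℚ) * ((v : Fin 2 → ℤ) i : ℚ) := by
  rw [Submodule.coe_smul, Pi.smul_apply, smul_eq_mul, Int.cast_mul]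

/-- The linear action on the lattice. -/
noncomputable def actL (h : H) : Lat ρ →ₗ[ℤ] Lat ρ where
  toFun := actF ρ h
  map_add' := by
    intro v w
    refine lat_ext ρ fun i => ?_
    rw [coe_add', actF_apply, actF_apply, actF_apply, coe_add', coe_add']
    ring
  map_smul' := by
    intro c v
    refine lat_ext ρ fun i => ?_
    rw [RingHom.id_apply, coe_smul', actF_apply, actF_apply, coe_smul', coe_smul']
    ring

theorem actL_apply (h : H) (v : Lat ρ) (i : Fin 2) :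
    ((actL ρ h v : Fin 2 → ℤ) i : ℚ) = ρ h i 0 * ((v : Fin 2 → ℤ) 0 : ℚ) +
      ρ h i 1 * ((v : Fin 2 → ℤ) 1 : ℚ) := actF_apply ρ h v i

theorem actL_mul (g h : H) : actL ρ (g * h) = actL ρ g ∘ₗ actL ρ h := by
  refine LinearMap.ext fun v => lat_ext ρ fun i => ?_
  rw [LinearMap.comp_apply, actL_apply, actL_apply, actL_apply, actL_apply, map_mul, mulE, mulE]
  ring

theorem actL_one : actL ρ 1 = LinearMap.id := by
  refine LinearMap.ext fun v => lat_ext ρ fun i => ?_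
  rw [LinearMap.id_apply, actL_apply, map_one]
  fin_cases i
  · show (1 : ℚ) * _ + 0 * _ = _
    rw [one_mul, zero_mul, add_zero]
    rfl
  · show (0 : ℚ) * _ + 1 * _ = _
    rw [one_mul, zero_mul, zero_add]
    rfl

variable (N : ℤ) (hN : N ≠ 0) (hb : ∀ h i j, ∃ m : ℤ, N * ρ h i j = m)

include hb in
theorem smul_mem_lat (v : Fin 2 → ℤ) : N • v ∈ Lat ρ := by
  intro h i
  obtain ⟨m, hm⟩ := hb h i 0
  obtain ⟨m', hm'⟩ := hb h i 1
  refine ⟨m * v 0 + m' * v 1, ?_⟩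
  rw [Pi.smul_apply, Pi.smul_apply, smul_eq_mul, smul_eq_mul]
  push_cast
  linear_combination (v 0 : ℚ) * hm + (v 1 : ℚ) * hm'

include hN hb in
theorem finrank_lat : Module.finrank ℤ (Lat ρ) = 2 := by
  have h1 : Module.finrank ℤ (Fin 2 → ℤ) = 2 := by simp
  refine le_antisymm ?_ ?_
  · exact (LinearMap.finrank_le_finrank_of_injective (f := (Lat ρ).subtype)
      (Submodule.injective_subtype _)).trans h1.le
  · refine h1.ge.trans ?_
    let f : (Fin 2 → ℤ) →ₗ[ℤ] Lat ρ :=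
      LinearMap.codRestrict (Lat ρ) (N • LinearMap.id) (smul_mem_lat ρ N hb)
    refine LinearMap.finrank_le_finrank_of_injective (f := f) fun v w hvw => ?_
    have h2 : N • v = N • w := congrArg Subtype.val hvw
    funext i
    have h3 := congrFun h2 i
    rw [Pi.smul_apply, Pi.smul_apply, smul_eq_mul, smul_eq_mul] at h3
    exact mul_left_cancel₀ hN h3

include hN hb in
/-- A group of matrices in `SL₂(ℚ)` with bounded denominators is isomorphic to a subgroup of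
`SL₂(ℤ)`. -/
theorem conj_int (hρ : Function.Injective ρ) :
    ∃ ψ : H →* SpecialLinearGroup (Fin 2) ℤ, Function.Injective ψ := by
  have hfr := finrank_lat ρ N hN hb
  let b : Module.Basis (Fin 2) ℤ (Lat ρ) := Module.finBasisOfFinrankEq ℤ (Lat ρ) hfr
  let P : Matrix (Fin 2) (Fin 2) ℚ := Matrix.of fun i j => ((b j : Fin 2 → ℤ) i : ℚ)
  let M : H → Matrix (Fin 2) (Fin 2) ℤ := fun h => LinearMap.toMatrix b b (actL ρ h)
  have hM1 : M 1 = 1 := by
    show LinearMap.toMatrix b b (actL ρ 1) = 1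
    rw [actL_one, LinearMap.toMatrix_id]
  have hMm : ∀ g h, M (g * h) = M g * M h := by
    intro g h
    show LinearMap.toMatrix b b (actL ρ (g * h)) = _
    rw [actL_mul, LinearMap.toMatrix_comp b b b]
  have hsum : ∀ (v : Lat ρ) (i : Fin 2), ((v : Fin 2 → ℤ) i : ℚ) =
      (b.repr v 0 : ℚ) * P i 0 + (b.repr v 1 : ℚ) * P i 1 := by
    intro v i
    have h1 := b.sum_repr v
    rw [Fin.sum_univ_two] at h1
    have h2 := congrArg (fun v : Lat ρ => ((v : Fin 2 → ℤ) i : ℚ)) h1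
    have h3 : ((((b.repr v 0) • b 0 + (b.repr v 1) • b 1 : Lat ρ) : Fin 2 → ℤ) i : ℚ) =
      (b.repr v 0 : ℚ) * P i 0 + (b.repr v 1 : ℚ) * P i 1 := by
      rw [Submodule.coe_add, Submodule.coe_smul, Submodule.coe_smul, Pi.add_apply, Pi.smul_apply,
        Pi.smul_apply, smul_eq_mul, smul_eq_mul]
      push_cast
      rfl
    exact h2.symm.trans h3
  have hP : ∀ h, (ρ h : Matrix (Fin 2) (Fin 2) ℚ) * P = P * (M h).map (Int.cast : ℤ → ℚ) := by
    intro h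
    ext i j
    rw [Matrix.mul_apply, Matrix.mul_apply, Fin.sum_univ_two, Fin.sum_univ_two]
    have h1 := actL_apply ρ h (b j) i
    rw [hsum] at h1
    have h2 : ∀ k, (M h).map (Int.cast : ℤ → ℚ) k j = (b.repr (actL ρ h (b j)) k : ℚ) := by
      intro k
      rw [Matrix.map_apply]
      show ((LinearMap.toMatrix b b (actL ρ h) k j : ℤ) : ℚ) = _
      rw [LinearMap.toMatrix_apply]
    rw [h2, h2]
    have h3 : (ρ h : Matrix (Fin 2) (Fin 2) ℚ) i 0 * P 0 j + (ρ h : Matrix (Fin 2) (Fin 2) ℚ) i 1 *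
      P 1 j = ρ h i 0 * ((b j : Fin 2 → ℤ) 0 : ℚ) + ρ h i 1 * ((b j : Fin 2 → ℤ) 1 : ℚ) := rfl
    rw [h3, ← h1]
    ring
  have hdet : P.det ≠ 0 := by
    let X : Matrix (Fin 2) (Fin 2) ℚ := Matrix.of fun k j =>
      (b.repr ⟨N • Pi.single j 1, smul_mem_lat ρ N hb _⟩ k : ℚ)
    have hX : P * X = (N : ℚ) • 1 := by
      ext i j
      rw [Matrix.mul_apply, Fin.sum_univ_two, Matrix.smul_apply, smul_eq_mul]
      have h1 := hsum ⟨N • Pi.single j 1, smul_mem_lat ρ N hb _⟩ i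
      have h2 : P i 0 * X 0 j + P i 1 * X 1 j =
        (b.repr ⟨N • Pi.single j 1, smul_mem_lat ρ N hb _⟩ 0 : ℚ) * P i 0 +
        (b.repr ⟨N • Pi.single j 1, smul_mem_lat ρ N hb _⟩ 1 : ℚ) * P i 1 := by
        show P i 0 * (b.repr ⟨N • Pi.single j 1, smul_mem_lat ρ N hb _⟩ 0 : ℚ) +
          P i 1 * (b.repr ⟨N • Pi.single j 1, smul_mem_lat ρ N hb _⟩ 1 : ℚ) = _
        ring
      rw [h2, ← h1]
      show ((N • (Pi.single j 1 : Fin 2 → ℤ)) i : ℚ) = _
      rw [Pi.smul_apply, smul_eq_mul, Matrix.one_apply, Pi.single_apply]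
      push_cast
      rfl
    intro h0
    have h1 := congrArg Matrix.det hX
    rw [Matrix.det_mul, h0, zero_mul, Matrix.det_smul, Matrix.det_one, mul_one] at h1
    exact hN (by exact_mod_cast pow_eq_zero_iff (by simp) |>.1 h1.symm)
  have hdM : ∀ h, (M h).det = 1 := by
    intro h
    have h1 := congrArg Matrix.det (hP h)
    rw [Matrix.det_mul, Matrix.det_mul, (ρ h).2, one_mul] at h1
    have h2 : ((M h).map (Int.cast : ℤ → ℚ)).det = 1 :=
      mul_left_cancel₀ hdet (h1.symm.trans (mul_one _).symm)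
    have h3 : (((M h).det : ℤ) : ℚ) = 1 := by
      rw [← h2]
      exact RingHom.map_det (Int.castRingHom ℚ) (M h)
    exact_mod_cast h3
  refine ⟨{ toFun := fun h => ⟨M h, hdM h⟩
            map_one' := Subtype.ext hM1
            map_mul' := fun g h => Subtype.ext (hMm g h) }, ?_⟩
  rw [injective_iff_map_eq_one]
  intro h hh
  have h1 : M h = 1 := congrArg Subtype.val hh
  have h2 := hP h
  rw [h1] at h2
  have h3 : (1 : Matrix (Fin 2) (Fin 2) ℤ).map (Int.cast : ℤ → ℚ) = 1 := by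
    rw [Matrix.map_one] <;> simp
  rw [h3, mul_one] at h2
  have h4 : IsUnit P := (Matrix.isUnit_iff_isUnit_det P).2 (isUnit_iff_ne_zero.2 hdet)
  have h5 : (ρ h : Matrix (Fin 2) (Fin 2) ℚ) = 1 := by
    have : (ρ h : Matrix (Fin 2) (Fin 2) ℚ) * P = 1 * P := by rw [h2, one_mul]
    exact h4.mul_right_cancel this
  apply hρ
  rw [map_one]
  exact Subtype.ext h5

end lattice

/-! ### The dichotomy -/

theorem map_entry {A : Type u} {B : Type v} [CommRing A] [CommRing B] (f : A →+* B)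
    (g : SpecialLinearGroup (Fin 2) A) (i j : Fin 2) :
    (SpecialLinearGroup.map f g : SpecialLinearGroup (Fin 2) B) i j = f (g i j) := rfl

theorem map_tr {A : Type u} {B : Type v} [CommRing A] [CommRing B] (f : A →+* B)
    (g : SpecialLinearGroup (Fin 2) A) : tr (SpecialLinearGroup.map f g) = f (tr g) := by
  rw [tr, tr, map_entry, map_entry, map_add]

/-- STAB0. Let `A` be a ring with a homomorphism to `ℚ`, contained in a field `K` such that
`χ = ± 1` for all `χ` in `K` with `χ + χ⁻¹` in `ℤ`.  A group of matrices in `SL₂(A)` with traces in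
`ℤ` is commutative or isomorphic to a subgroup of `SL₂(ℤ)`. -/
theorem stab0 {H : Type u} [Group H] {A : Type v} [CommRing A] {K : Type w} [Field K]
    (ι : A →+* K) (hι : Function.Injective ι) (σ : A →+* ℚ)
    (hK : ∀ χ : K, χ ≠ 0 → (∃ t : ℤ, χ + χ⁻¹ = t) → χ = 1 ∨ χ = -1)
    (φ : H →* SpecialLinearGroup (Fin 2) A) (hφ : Function.Injective φ)
    (ht : ∀ h, ∃ t : ℤ, tr (φ h) = t) :
    (∀ x y : H, x * y = y * x) ∨
      ∃ ψ : H →* SpecialLinearGroup (Fin 2) ℤ, Function.Injective ψ := by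
  have hσ : ∀ h : H, ∀ t : ℤ, tr (SpecialLinearGroup.map σ (φ h)) = t → tr (φ h) = t := by
    intro h t h1
    obtain ⟨t', h2⟩ := ht h
    rw [map_tr, h2, map_intCast] at h1
    have h3 : t' = t := by exact_mod_cast h1
    rw [h2, h3]
  have htK : ∀ h, ∃ t : ℤ, tr (((SpecialLinearGroup.map ι).comp φ) h) = t := by
    intro h
    obtain ⟨t, h1⟩ := ht h
    refine ⟨t, ?_⟩
    rw [MonoidHom.comp_apply, map_tr, h1, map_intCast]
  have htQ : ∀ h, ∃ t : ℤ, tr (((SpecialLinearGroup.map σ).comp φ) h) = t := by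
    intro h
    obtain ⟨t, h1⟩ := ht h
    refine ⟨t, ?_⟩
    rw [MonoidHom.comp_apply, map_tr, h1, map_intCast]
  have hinj : Function.Injective ((SpecialLinearGroup.map ι).comp φ) := by
    intro g h hgh
    apply hφ
    have h1 : ∀ i j, φ g i j = φ h i j := by
      intro i j
      have h2 : (SpecialLinearGroup.map ι (φ g) : SpecialLinearGroup (Fin 2) K) i j =
        (SpecialLinearGroup.map ι (φ h) : SpecialLinearGroup (Fin 2) K) i j := by
        have h3 : (SpecialLinearGroup.map ι (φ g) : SpecialLinearGroup (Fin 2) K) =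
          SpecialLinearGroup.map ι (φ h) := hgh
        rw [h3]
      rw [map_entry, map_entry] at h2
      exact hι h2
    exact ext2 (h1 0 0) (h1 0 1) (h1 1 0) (h1 1 1)
  by_cases hc : ∀ x y : H, tr (((SpecialLinearGroup.map ι).comp φ) (x * y * x⁻¹ * y⁻¹)) = 2
  · exact Or.inl fun x y => comm_of _ hinj htK hK hc x y
  right
  push Not at hc
  obtain ⟨x, y, hxy⟩ := hc
  obtain ⟨ρ, hρ⟩ : ∃ ρ, (SpecialLinearGroup.map σ).comp φ = ρ := ⟨_, rfl⟩
  have hxyQ : tr (ρ (x * y * x⁻¹ * y⁻¹)) ≠ 2 := by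
    intro h0
    apply hxy
    rw [← hρ, MonoidHom.comp_apply] at h0
    have h1 := hσ _ 2 (by rw [h0]; norm_num)
    rw [MonoidHom.comp_apply, map_tr, h1, map_intCast]
    norm_num
  rw [hρ] at htQ
  have hb : ∃ N : ℤ, N ≠ 0 ∧ ∀ h i j, ∃ m : ℤ, N * ρ h i j = m := by
    have b := fun i j => bounded ρ htQ x y hxyQ i j
    obtain ⟨N, hN, n1, n2⟩ := Bd.common (b 0 0) (b 0 1)
    obtain ⟨M, hM, m1, m2⟩ := Bd.common (b 1 0) (b 1 1)
    have aux : ∀ (q : ℚ) (N M : ℤ), (∃ m : ℤ, N * q = m) → ∃ m : ℤ, (N * M : ℤ) * q = m := by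
      rintro q N M ⟨m, hm⟩
      exact ⟨M * m, by push_cast; rw [← hm]; ring⟩
    refine ⟨N * M, mul_ne_zero hN hM, fun h i j => ?_⟩
    fin_cases i <;> fin_cases j
    · exact aux _ _ _ (n1 h)
    · exact aux _ _ _ (n2 h)
    · rw [mul_comm N M]
      exact aux _ _ _ (m1 h)
    · rw [mul_comm N M]
      exact aux _ _ _ (m2 h)
  obtain ⟨N, hN, hb⟩ := hb
  refine conj_int ρ N hN hb ?_
  rw [injective_iff_map_eq_one]
  intro h hh
  have hh' : SpecialLinearGroup.map σ (φ h) = 1 := by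
    rw [← hρ] at hh
    exact hh
  -- the traces of `h z` and `z` agree
  have key : ∀ z : H, tr (((SpecialLinearGroup.map ι).comp φ) (h * z)) =
      tr (((SpecialLinearGroup.map ι).comp φ) z) := by
    intro z
    obtain ⟨t, h1⟩ := ht z
    have h2 : tr (SpecialLinearGroup.map σ (φ (h * z))) = (t : ℚ) := by
      rw [map_mul φ, map_mul, hh', one_mul, map_tr, h1, map_intCast]
    have h3 := hσ _ t h2
    rw [MonoidHom.comp_apply, MonoidHom.comp_apply, map_tr, map_tr, h3, h1]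
  obtain ⟨Φ, hΦ⟩ : ∃ Φ, (SpecialLinearGroup.map ι).comp φ = Φ := ⟨_, rfl⟩
  rw [hΦ] at key hinj hxy
  rw [map_mul, map_mul, map_mul, map_inv, map_inv] at hxy
  have k1 := key 1
  have k2 := key x
  have k3 := key y
  have k4 := key (x * y)
  rw [mul_one, map_one, tr_one, tr] at k1
  rw [map_mul, tr, tr, mulE (Φ h), mulE (Φ h)] at k2 k3 k4
  rw [map_mul] at k4
  obtain ⟨r1, r2, r3, r4⟩ := nondeg (Φ x) (Φ y) hxy (Φ h 0 0 - 1) (Φ h 0 1) (Φ h 1 0)
    (Φ h 1 1 - 1) (by linear_combination k1) (by linear_combination k2)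
    (by linear_combination k3) (by linear_combination k4)
  apply hinj
  rw [map_one]
  refine ext2 ?_ ?_ ?_ ?_
  · rw [one00]; linear_combination r1
  · rw [one01, r2]
  · rw [one10, r3]
  · rw [one11]; linear_combination r4

end Pool.Agent.NegK.NT.H22
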