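import Pool.Agent.Lib.MP_28303a_al.NT.H22.Stab

/-! # Groups of matrices in `GL₂` with integral traces and determinants `± 1`

The analogue of `Stab.lean` for `GL₂`. -/

set_option autoImplicit false
set_option linter.unusedSectionVars false
set_option linter.unusedVariables false

namespace Pool.Agent.NegK.NT.H22.G

universe u v w

section entries

variable {F : Type u} [CommRing F]

/-- The trace. -/
def tr (g : Matrix (Fin 2) (Fin 2) F) : F := g 0 0 + g 1 1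

/-- The determinant. -/
def dt (g : Matrix (Fin 2) (Fin 2) F) : F := g 0 0 * g 1 1 - g 0 1 * g 1 0

/-- The adjugate. -/
def adj (g : Matrix (Fin 2) (Fin 2) F) : Matrix (Fin 2) (Fin 2) F :=
  !![g 1 1, -g 0 1; -g 1 0, g 0 0]

theorem adj00 (g : Matrix (Fin 2) (Fin 2) F) : adj g 0 0 = g 1 1 := rfl

theorem adj01 (g : Matrix (Fin 2) (Fin 2) F) : adj g 0 1 = -g 0 1 := rfl

theorem adj10 (g : Matrix (Fin 2) (Fin 2) F) : adj g 1 0 = -g 1 0 := rfl

theorem adj11 (g : Matrix (Fin 2) (Fin 2) F) : adj g 1 1 = g 0 0 := rfl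

theorem tr_eq (g : Matrix (Fin 2) (Fin 2) F) : Matrix.trace g = tr g := Matrix.trace_fin_two _

theorem dt_eq (g : Matrix (Fin 2) (Fin 2) F) : g.det = dt g := Matrix.det_fin_two _

theorem mulE (g h : Matrix (Fin 2) (Fin 2) F) (i j : Fin 2) :
    (g * h) i j = g i 0 * h 0 j + g i 1 * h 1 j := by
  rw [Matrix.mul_apply, Fin.sum_univ_two]

theorem dt_mul (g h : Matrix (Fin 2) (Fin 2) F) : dt (g * h) = dt g * dt h := by
  rw [← dt_eq, Matrix.det_mul, dt_eq, dt_eq]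

theorem dt_one : dt (1 : Matrix (Fin 2) (Fin 2) F) = 1 := by
  rw [← dt_eq, Matrix.det_one]

theorem tr_one : tr (1 : Matrix (Fin 2) (Fin 2) F) = 2 := by
  rw [tr, Matrix.one_apply_eq, Matrix.one_apply_eq]; norm_num

theorem tr_smul (c : F) (g : Matrix (Fin 2) (Fin 2) F) : tr (c • g) = c * tr g := by
  rw [tr, tr, Matrix.smul_apply, Matrix.smul_apply, smul_eq_mul, smul_eq_mul]; ring

theorem ext2 {g h : Matrix (Fin 2) (Fin 2) F} (h1 : g 0 0 = h 0 0) (h2 : g 0 1 = h 0 1)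
    (h3 : g 1 0 = h 1 0) (h4 : g 1 1 = h 1 1) : g = h := by
  ext i j
  fin_cases i <;> fin_cases j
  · exact h1
  · exact h2
  · exact h3
  · exact h4

/-- Cayley and Hamilton. -/
theorem sq_eq (g : Matrix (Fin 2) (Fin 2) F) : g * g = tr g • g - dt g • 1 := by
  refine ext2 ?_ ?_ ?_ ?_ <;>
    simp only [mulE, Matrix.sub_apply, Matrix.smul_apply, smul_eq_mul, Matrix.one_apply_eq,
      Matrix.one_apply_ne, ne_eq, zero_ne_one, one_ne_zero, not_false_eq_true, tr, dt] <;> ring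

/-- The determinant of `1, a, b, ab`. -/
def dd (a b : Matrix (Fin 2) (Fin 2) F) : F :=
  (a 0 0 - a 1 1) * ((b 1 0) * ((a * b) 0 1) - (b 0 1) * ((a * b) 1 0)) -
    (a 1 0) * ((b 0 0 - b 1 1) * ((a * b) 0 1) - (b 0 1) * ((a * b) 0 0 - (a * b) 1 1)) +
    (a 0 1) * ((b 0 0 - b 1 1) * ((a * b) 1 0) - (b 1 0) * ((a * b) 0 0 - (a * b) 1 1))

theorem dd_eq (a b : Matrix (Fin 2) (Fin 2) F) :
    dd a b = 2 * dt a * dt b - tr (a * b * adj a * adj b) := by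
  rw [tr, dd, dt, dt]
  simp only [mulE, adj00, adj01, adj10, adj11]
  ring

variable {H : Type v} [Group H] (Φ : H →* Matrix (Fin 2) (Fin 2) F)

theorem adj_eq (h : H) : adj (Φ h) = dt (Φ h) • Φ h⁻¹ := by
  have e : Φ h * Φ h⁻¹ = 1 := by rw [← map_mul, mul_inv_cancel, map_one]
  have e00 := congrFun (congrFun e 0) 0
  have e01 := congrFun (congrFun e 0) 1
  have e10 := congrFun (congrFun e 1) 0
  have e11 := congrFun (congrFun e 1) 1
  rw [mulE] at e00 e01 e10 e11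
  rw [Matrix.one_apply_eq] at e00 e11
  rw [Matrix.one_apply_ne (by decide)] at e01 e10
  refine ext2 ?_ ?_ ?_ ?_
  · rw [adj00, Matrix.smul_apply, smul_eq_mul, dt]
    linear_combination -(Φ h 1 1 * e00 - Φ h 0 1 * e10)
  · rw [adj01, Matrix.smul_apply, smul_eq_mul, dt]
    linear_combination -(Φ h 1 1 * e01 - Φ h 0 1 * e11)
  · rw [adj10, Matrix.smul_apply, smul_eq_mul, dt]
    linear_combination -(Φ h 0 0 * e10 - Φ h 1 0 * e00)
  · rw [adj11, Matrix.smul_apply, smul_eq_mul, dt]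
    linear_combination -(Φ h 0 0 * e11 - Φ h 1 0 * e01)

theorem dt_inv (h : H) : dt (Φ h) * dt (Φ h⁻¹) = 1 := by
  rw [← dt_mul, ← map_mul, mul_inv_cancel, map_one, dt_one]

theorem dt_comm (x y : H) : dt (Φ (x * y * x⁻¹ * y⁻¹)) = 1 := by
  rw [map_mul, map_mul, map_mul, dt_mul, dt_mul, dt_mul]
  linear_combination (dt (Φ y) * dt (Φ y⁻¹)) * dt_inv Φ x + dt_inv Φ y

theorem tr_adj (x y : H) : tr (Φ x * Φ y * adj (Φ x) * adj (Φ y)) =
    dt (Φ x) * dt (Φ y) * tr (Φ (x * y * x⁻¹ * y⁻¹)) := by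
  rw [adj_eq, adj_eq, Matrix.mul_smul, Matrix.mul_smul, Matrix.smul_mul, tr_smul, tr_smul,
    map_mul, map_mul, map_mul]
  ring

theorem dd_comm (x y : H) :
    dd (Φ x) (Φ y) = dt (Φ x) * dt (Φ y) * (2 - tr (Φ (x * y * x⁻¹ * y⁻¹))) := by
  rw [dd_eq, tr_adj]
  ring

end entries

/-- Solution of the linear system. -/
theorem cramer {F : Type u} [CommRing F] (a b : Matrix (Fin 2) (Fin 2) F)
    (x₁ x₂ x₃ x₄ t₁ t₂ t₃ t₄ : F) (e₁ : x₁ + x₄ = t₁)
    (e₂ : x₁ * a 0 0 + x₂ * a 1 0 + x₃ * a 0 1 + x₄ * a 1 1 = t₂)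
    (e₃ : x₁ * b 0 0 + x₂ * b 1 0 + x₃ * b 0 1 + x₄ * b 1 1 = t₃)
    (e₄ : x₁ * (a * b) 0 0 + x₂ * (a * b) 1 0 + x₃ * (a * b) 0 1 + x₄ * (a * b) 1 1 = t₄) :
    dd a b * x₁ =
      (b 1 0 * (a * b) 0 1 - b 0 1 * (a * b) 1 0) * (t₂ - a 1 1 * t₁) +
      ((a * b) 1 0 * a 0 1 - (a * b) 0 1 * a 1 0) * (t₃ - b 1 1 * t₁) +
      (a 1 0 * b 0 1 - a 0 1 * b 1 0) * (t₄ - (a * b) 1 1 * t₁) ∧
    dd a b * x₂ =
      (b 0 1 * ((a * b) 0 0 - (a * b) 1 1) - (b 0 0 - b 1 1) * (a * b) 0 1) * (t₂ - a 1 1 * t₁) +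
      ((a * b) 0 1 * (a 0 0 - a 1 1) - ((a * b) 0 0 - (a * b) 1 1) * a 0 1) *
        (t₃ - b 1 1 * t₁) +
      (a 0 1 * (b 0 0 - b 1 1) - (a 0 0 - a 1 1) * b 0 1) * (t₄ - (a * b) 1 1 * t₁) ∧
    dd a b * x₃ =
      ((b 0 0 - b 1 1) * (a * b) 1 0 - b 1 0 * ((a * b) 0 0 - (a * b) 1 1)) * (t₂ - a 1 1 * t₁) +
      (((a * b) 0 0 - (a * b) 1 1) * a 1 0 - (a * b) 1 0 * (a 0 0 - a 1 1)) *
        (t₃ - b 1 1 * t₁) +
      ((a 0 0 - a 1 1) * b 1 0 - a 1 0 * (b 0 0 - b 1 1)) * (t₄ - (a * b) 1 1 * t₁) := by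
  subst e₁ e₂ e₃ e₄
  refine ⟨?_, ?_, ?_⟩ <;> rw [dd] <;> ring

theorem nondeg {F : Type u} [Field F] (a b : Matrix (Fin 2) (Fin 2) F)
    (hD : dd a b ≠ 0) (x₁ x₂ x₃ x₄ : F) (e₁ : x₁ + x₄ = 0)
    (e₂ : x₁ * a 0 0 + x₂ * a 1 0 + x₃ * a 0 1 + x₄ * a 1 1 = 0)
    (e₃ : x₁ * b 0 0 + x₂ * b 1 0 + x₃ * b 0 1 + x₄ * b 1 1 = 0)
    (e₄ : x₁ * (a * b) 0 0 + x₂ * (a * b) 1 0 + x₃ * (a * b) 0 1 + x₄ * (a * b) 1 1 = 0) :
    x₁ = 0 ∧ x₂ = 0 ∧ x₃ = 0 ∧ x₄ = 0 := by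
  obtain ⟨h1, h2, h3⟩ := cramer a b x₁ x₂ x₃ x₄ 0 0 0 0 e₁ e₂ e₃ e₄
  simp only [mul_zero, sub_zero, add_zero] at h1 h2 h3
  have k1 := (mul_eq_zero.1 h1).resolve_left hD
  refine ⟨k1, (mul_eq_zero.1 h2).resolve_left hD, (mul_eq_zero.1 h3).resolve_left hD, ?_⟩
  rw [k1, zero_add] at e₁
  exact e₁

/-! ### Determinants in the triangular case -/

theorem eigen {K : Type u} [Field K] (α β γ p q r s d : K) (h0 : α ^ 2 + β * γ = 0)
    (hn : β ≠ 0 ∨ γ ≠ 0) (hd : p * s - q * r = d) (ht : α * (p - s) + β * r + γ * q = 0) :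
    ∃ χ χ' : K, χ * χ' = d ∧ χ + χ' = p + s := by
  by_cases hβ : β = 0
  · have hγ : γ ≠ 0 := hn.resolve_left (fun h => h hβ)
    rw [hβ, zero_mul, add_zero] at h0
    have hα : α = 0 := pow_eq_zero_iff (two_ne_zero) |>.1 h0
    rw [hα, hβ, zero_mul, zero_mul, zero_add, zero_add] at ht
    have hq : q = 0 := (mul_eq_zero.1 ht).resolve_left hγ
    rw [hq, zero_mul, sub_zero] at hd
    exact ⟨p, s, hd, rfl⟩
  · refine ⟨p - q * α / β, s + q * α / β, ?_, by ring⟩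
    have : β ^ 2 * ((p - q * α / β) * (s + q * α / β)) = β ^ 2 * d := by
      have e : β ^ 2 * ((p - q * α / β) * (s + q * α / β)) =
        (β * p - q * α) * (β * s + q * α) := by
        field_simp
      rw [e]
      linear_combination β ^ 2 * hd + q * β * ht - q ^ 2 * h0
    exact mul_left_cancel₀ (pow_ne_zero 2 hβ) this

/-- The trace of the commutator with `1 + n`. -/
theorem tr_comm_uni {K : Type u} [CommRing K] (c h : Matrix (Fin 2) (Fin 2) K) (α : K)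
    (hc : dt c = 1) (h1 : c 0 0 = 1 + α) (h2 : c 1 1 = 1 - α) :
    tr (c * h * adj c * adj h) = 2 * dt h +
      (α * (h 0 0 - h 1 1) + c 0 1 * h 1 0 + c 1 0 * h 0 1) ^ 2 := by
  rw [dt, h1, h2] at hc
  rw [tr, dt]
  simp only [mulE, adj00, adj01, adj10, adj11, h1, h2]
  linear_combination (h 0 0 ^ 2 + 2 * h 0 1 * h 1 0 + h 1 1 ^ 2) * hc

/-- In a torsionfree group of matrices with determinants `± 1` and integral traces such that all
commutators have the trace `2` all determinants are `1`. -/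
theorem det_one {H : Type u} [Group H] {K : Type v} [Field K] (h2 : (2 : K) ≠ 0)
    (htf : ∀ (g : H) (n : ℕ), 0 < n → g ^ n = 1 → g = 1)
    (Φ : H →* Matrix (Fin 2) (Fin 2) K) (hΦ : Function.Injective Φ)
    (ht : ∀ h, ∃ t : ℤ, tr (Φ h) = t) (hd : ∀ h, dt (Φ h) = 1 ∨ dt (Φ h) = -1)
    (hK : ∀ χ : K, χ ≠ 0 → (∃ t : ℤ, χ + χ⁻¹ = t) → χ = 1 ∨ χ = -1)
    (hc : ∀ x y : H, tr (Φ (x * y * x⁻¹ * y⁻¹)) = 2) (x y : H) (hxy : x * y ≠ y * x) (h : H) :
    dt (Φ h) = 1 := by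
  obtain ⟨c, hcd⟩ : ∃ c, x * y * x⁻¹ * y⁻¹ = c := ⟨_, rfl⟩
  have hc1 : c ≠ 1 := by
    intro h
    apply hxy
    rw [h] at hcd
    have h1 : x * y * x⁻¹ = y := mul_inv_eq_one.1 hcd
    exact mul_inv_eq_iff_eq_mul.1 h1
  have hc2 : Φ c ≠ 1 := fun h => hc1 (hΦ (h.trans (map_one Φ).symm))
  have htc : tr (Φ c) = 2 := by rw [← hcd]; exact hc x y
  have hdc : dt (Φ c) = 1 := by rw [← hcd]; exact dt_comm Φ x y
  obtain ⟨α, hα⟩ : ∃ α, Φ c 0 0 - 1 = α := ⟨_, rfl⟩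
  have h00 : Φ c 0 0 = 1 + α := by rw [← hα]; ring
  have h11 : Φ c 1 1 = 1 - α := by
    rw [tr] at htc
    linear_combination htc - h00
  have h0 : α ^ 2 + Φ c 0 1 * Φ c 1 0 = 0 := by
    have := hdc
    rw [dt, h00, h11] at this
    linear_combination -this
  have hn : Φ c 0 1 ≠ 0 ∨ Φ c 1 0 ≠ 0 := by
    by_contra h
    rw [not_or, not_not, not_not] at h
    rw [h.1, h.2, mul_zero, add_zero] at h0
    have hα0 : α = 0 := pow_eq_zero_iff (two_ne_zero) |>.1 h0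
    apply hc2
    refine ext2 ?_ ?_ ?_ ?_
    · rw [h00, hα0, add_zero, Matrix.one_apply_eq]
    · rw [h.1, Matrix.one_apply_ne (by decide)]
    · rw [h.2, Matrix.one_apply_ne (by decide)]
    · rw [h11, hα0, sub_zero, Matrix.one_apply_eq]
  rcases hd h with hh | hh
  · exact hh
  exfalso
  have hτ : α * (Φ h 0 0 - Φ h 1 1) + Φ c 0 1 * Φ h 1 0 + Φ c 1 0 * Φ h 0 1 = 0 := by
    have h1 := hc c h
    have h2 := tr_adj Φ c h
    rw [h1, tr_comm_uni (Φ c) (Φ h) α hdc h00 h11, hdc] at h2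
    have h3 : (α * (Φ h 0 0 - Φ h 1 1) + Φ c 0 1 * Φ h 1 0 + Φ c 1 0 * Φ h 0 1) ^ 2 = 0 := by
      linear_combination h2
    exact pow_eq_zero_iff (two_ne_zero) |>.1 h3
  obtain ⟨χ, χ', e1, e2⟩ := eigen α (Φ c 0 1) (Φ c 1 0) (Φ h 0 0) (Φ h 0 1) (Φ h 1 0) (Φ h 1 1)
    (-1) h0 hn (by rw [← hh, dt]) hτ
  have hχ : χ ≠ 0 := by
    intro h
    rw [h, zero_mul] at e1
    exact one_ne_zero (neg_eq_zero.1 e1.symm)
  have hχ' : χ' = -χ⁻¹ := by
    field_simp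
    linear_combination e1
  obtain ⟨t, htt⟩ := ht h
  have e3 : χ - χ⁻¹ = t := by
    rw [← htt, tr, ← e2, hχ']; ring
  have e4 : χ ^ 2 = 1 ∨ χ ^ 2 = -1 := by
    refine hK (χ ^ 2) (pow_ne_zero 2 hχ) ⟨t ^ 2 + 2, ?_⟩
    push_cast
    rw [← e3]
    field_simp
    ring
  have e5 : χ ^ 2 = 1 := by
    rcases e4 with h | h
    · exact h
    · have h5 : χ⁻¹ = -χ := by
        field_simp
        linear_combination h
      rcases hK χ hχ ⟨0, by rw [h5]; push_cast; ring⟩ with h6 | h6 <;> rw [h6] <;> ring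
  have e6 : χ⁻¹ = χ := by
    field_simp
    linear_combination -e5
  have e7 : tr (Φ h) = 0 := by
    rw [htt, ← e3, e6, sub_self]
  have e8 : Φ h * Φ h = 1 := by
    rw [sq_eq, e7, hh, zero_smul, neg_smul, one_smul, zero_sub, neg_neg]
  have e9 : h = 1 := by
    refine htf h 2 two_pos (hΦ ?_)
    rw [pow_two, map_mul, e8, map_one]
  rw [e9, map_one, dt_one] at hh
  have e10 : Φ h = 1 := by rw [e9, map_one]
  rw [e10, tr_one] at e7
  exact h2 e7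

/-- If all commutators have the trace `2` then the group is commutative. -/
theorem comm_of {H : Type u} [Group H] {K : Type v} [Field K] (h2 : (2 : K) ≠ 0)
    (htf : ∀ (g : H) (n : ℕ), 0 < n → g ^ n = 1 → g = 1)
    (Φ : H →* Matrix (Fin 2) (Fin 2) K) (hΦ : Function.Injective Φ)
    (ht : ∀ h, ∃ t : ℤ, tr (Φ h) = t) (hd : ∀ h, dt (Φ h) = 1 ∨ dt (Φ h) = -1)
    (hK : ∀ χ : K, χ ≠ 0 → (∃ t : ℤ, χ + χ⁻¹ = t) → χ = 1 ∨ χ = -1)
    (hc : ∀ x y : H, tr (Φ (x * y * x⁻¹ * y⁻¹)) = 2) (x y : H) : x * y = y * x := by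
  by_contra hxy
  have h1 := det_one h2 htf Φ hΦ ht hd hK hc x y hxy
  have h1' : ∀ h, (Φ h).det = 1 := fun h => by rw [dt_eq, h1]
  let φ : H →* Matrix.SpecialLinearGroup (Fin 2) K :=
    { toFun := fun h => ⟨Φ h, h1' h⟩
      map_one' := Subtype.ext (map_one Φ)
      map_mul' := fun g h => Subtype.ext (map_mul Φ g h) }
  have hφ : Function.Injective φ := fun g h hgh => hΦ (congrArg Subtype.val hgh)
  exact hxy (H22.comm_of φ hφ ht hK hc x y)

/-! ### Bounded denominators -/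

/-- Bounded denominators of the matrices of a group with integral traces which is not
triangular. -/
theorem bounded {H : Type u} [Group H] (ρ : H →* Matrix (Fin 2) (Fin 2) ℚ)
    (ht : ∀ h, ∃ t : ℤ, tr (ρ h) = t) (x y : H) (hD : dd (ρ x) (ρ y) ≠ 0)
    (i j : Fin 2) : Bd (fun h => ρ h i j) := by
  have T1 : Bd (fun h => tr (ρ h)) := Bd.int ht
  have T2 : Bd (fun h => tr (ρ (h * x))) := Bd.int fun h => ht _
  have T3 : Bd (fun h => tr (ρ (h * y))) := Bd.int fun h => ht _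
  have T4 : Bd (fun h => tr (ρ (h * (x * y)))) := Bd.int fun h => ht _
  have hcr := fun h : H => cramer (ρ x) (ρ y) (ρ h 0 0) (ρ h 0 1) (ρ h 1 0) (ρ h 1 1)
    (tr (ρ h)) (tr (ρ (h * x))) (tr (ρ (h * y))) (tr (ρ (h * (x * y)))) rfl
    (by rw [map_mul, tr, mulE, mulE]; ring) (by rw [map_mul, tr, mulE, mulE]; ring)
    (by rw [map_mul, map_mul, tr, mulE (ρ h), mulE (ρ h)]; ring)
  have gen : ∀ (f : H → ℚ) (c₂ c₃ c₄ d₂ d₃ d₄ : ℚ), (∀ h, dd (ρ x) (ρ y) * f h =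
      c₂ * (tr (ρ (h * x)) - d₂ * tr (ρ h)) + c₃ * (tr (ρ (h * y)) - d₃ * tr (ρ h)) +
      c₄ * (tr (ρ (h * (x * y))) - d₄ * tr (ρ h))) → Bd f := by
    intro f c₂ c₃ c₄ d₂ d₃ d₄ hf
    have h1 : Bd (fun h => c₂ * tr (ρ (h * x)) + (c₃ * tr (ρ (h * y)) +
        (c₄ * tr (ρ (h * (x * y))) + -(c₂ * d₂ + c₃ * d₃ + c₄ * d₄) * tr (ρ h)))) :=
      (T2.mul c₂).add ((T3.mul c₃).add ((T4.mul c₄).add (T1.mul _)))
    refine (h1.mul (dd (ρ x) (ρ y))⁻¹).congr fun h => ?_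
    rw [eq_inv_mul_iff_mul_eq₀ hD, hf]
    ring
  have b00 : Bd (fun h => ρ h 0 0) := gen _ _ _ _ _ _ _ fun h => (hcr h).1
  have b01 : Bd (fun h => ρ h 0 1) := gen _ _ _ _ _ _ _ fun h => (hcr h).2.1
  have b10 : Bd (fun h => ρ h 1 0) := gen _ _ _ _ _ _ _ fun h => (hcr h).2.2
  have b11 : Bd (fun h => ρ h 1 1) := (T1.add (b00.mul (-1))).congr fun h => by
    show ρ h 1 1 = tr (ρ h) + -1 * ρ h 0 0
    rw [tr]; ring
  fin_cases i <;> fin_cases j
  · exact b00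
  · exact b01
  · exact b10
  · exact b11

/-! ### The lattice -/

section lattice

variable {H : Type u} [Group H] (ρ : H →* Matrix (Fin 2) (Fin 2) ℚ)

/-- The largest stable sublattice of `ℤ²`. -/
def Lat : Submodule ℤ (Fin 2 → ℤ) where
  carrier := {v | ∀ h i, ∃ m : ℤ, ρ h i 0 * (v 0 : ℚ) + ρ h i 1 * (v 1 : ℚ) = m}
  add_mem' := by
    intro v w hv hw h i
    obtain ⟨m, hm⟩ := hv h i
    obtain ⟨m', hm'⟩ := hw h i
    refine ⟨m + m', ?_⟩
    rw [Pi.add_apply, Pi.add_apply]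
    push_cast
    linear_combination hm + hm'
  zero_mem' := fun h i => ⟨0, by simp⟩
  smul_mem' := by
    intro c v hv h i
    obtain ⟨m, hm⟩ := hv h i
    refine ⟨c * m, ?_⟩
    rw [Pi.smul_apply, Pi.smul_apply, smul_eq_mul, smul_eq_mul]
    push_cast
    linear_combination (c : ℚ) * hm

theorem exists_act (h : H) (v : Lat ρ) : ∃ w : Lat ρ, ∀ i,
    ((w : Fin 2 → ℤ) i : ℚ) = ρ h i 0 * ((v : Fin 2 → ℤ) 0 : ℚ) +
      ρ h i 1 * ((v : Fin 2 → ℤ) 1 : ℚ) := by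
  obtain ⟨v, hv⟩ := v
  choose m hm using fun i => hv h i
  refine ⟨⟨m, fun h' i => ?_⟩, fun i => (hm i).symm⟩
  obtain ⟨l, hl⟩ := hv (h' * h) i
  refine ⟨l, ?_⟩
  rw [map_mul, mulE, mulE] at hl
  rw [← hm 0, ← hm 1, ← hl]
  ring

theorem lat_ext {v w : Lat ρ} (h : ∀ i, ((v : Fin 2 → ℤ) i : ℚ) = ((w : Fin 2 → ℤ) i : ℚ)) :
    v = w := by
  apply Subtype.ext
  funext i
  exact_mod_cast h i

/-- The action on the lattice. -/
noncomputable def actF (h : H) (v : Lat ρ) : Lat ρ := (exists_act ρ h v).choose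

theorem actF_apply (h : H) (v : Lat ρ) (i : Fin 2) :
    ((actF ρ h v : Fin 2 → ℤ) i : ℚ) = ρ h i 0 * ((v : Fin 2 → ℤ) 0 : ℚ) +
      ρ h i 1 * ((v : Fin 2 → ℤ) 1 : ℚ) := (exists_act ρ h v).choose_spec i

theorem coe_add' (v w : Lat ρ) (i : Fin 2) : (((v + w : Lat ρ) : Fin 2 → ℤ) i : ℚ) =
    ((v : Fin 2 → ℤ) i : ℚ) + ((w : Fin 2 → ℤ) i : ℚ) := by
  rw [Submodule.coe_add, Pi.add_apply, Int.cast_add]

theorem coe_smul' (c : ℤ) (v : Lat ρ) (i : Fin 2) : (((c • v : Lat ρ) : Fin 2 → ℤ) i : ℚ) =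
    (c : ℚ) * ((v : Fin 2 → ℤ) i : ℚ) := by
  rw [Submodule.coe_smul, Pi.smul_apply, smul_eq_mul, Int.cast_mul]

/-- The linear action on the lattice. -/
noncomputable def actL (h : H) : Lat ρ →ₗ[ℤ] Lat ρ where
  toFun := actF ρ h
  map_add' := by
    intro v w
    refine lat_ext ρ fun i => ?_
    rw [coe_add', actF_apply, actF_apply, actF_apply, coe_add', coe_add']
    ring
  map_smul' := by
    intro c v
    refine lat_ext ρ fun i => ?_
    rw [RingHom.id_apply, coe_smul', actF_apply, actF_apply, coe_smul', coe_smul']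
    ring

theorem actL_apply (h : H) (v : Lat ρ) (i : Fin 2) :
    ((actL ρ h v : Fin 2 → ℤ) i : ℚ) = ρ h i 0 * ((v : Fin 2 → ℤ) 0 : ℚ) +
      ρ h i 1 * ((v : Fin 2 → ℤ) 1 : ℚ) := actF_apply ρ h v i

theorem actL_mul (g h : H) : actL ρ (g * h) = actL ρ g ∘ₗ actL ρ h := by
  refine LinearMap.ext fun v => lat_ext ρ fun i => ?_
  rw [LinearMap.comp_apply, actL_apply, actL_apply, actL_apply, actL_apply, map_mul, mulE, mulE]
  ring

theorem actL_one : actL ρ 1 = LinearMap.id := by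
  refine LinearMap.ext fun v => lat_ext ρ fun i => ?_
  rw [LinearMap.id_apply, actL_apply, map_one]
  fin_cases i
  · show (1 : Matrix (Fin 2) (Fin 2) ℚ) 0 0 * _ + (1 : Matrix (Fin 2) (Fin 2) ℚ) 0 1 * _ = _
    rw [Matrix.one_apply_eq, Matrix.one_apply_ne (by decide), one_mul, zero_mul, add_zero]
    rfl
  · show (1 : Matrix (Fin 2) (Fin 2) ℚ) 1 0 * _ + (1 : Matrix (Fin 2) (Fin 2) ℚ) 1 1 * _ = _
    rw [Matrix.one_apply_eq, Matrix.one_apply_ne (by decide), one_mul, zero_mul, zero_add]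
    rfl

variable (N : ℤ) (hN : N ≠ 0) (hb : ∀ h i j, ∃ m : ℤ, N * ρ h i j = m)

include hb in
theorem smul_mem_lat (v : Fin 2 → ℤ) : N • v ∈ Lat ρ := by
  intro h i
  obtain ⟨m, hm⟩ := hb h i 0
  obtain ⟨m', hm'⟩ := hb h i 1
  refine ⟨m * v 0 + m' * v 1, ?_⟩
  rw [Pi.smul_apply, Pi.smul_apply, smul_eq_mul, smul_eq_mul]
  push_cast
  linear_combination (v 0 : ℚ) * hm + (v 1 : ℚ) * hm'

include hN hb in
theorem finrank_lat : Module.finrank ℤ (Lat ρ) = 2 := by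
  have h1 : Module.finrank ℤ (Fin 2 → ℤ) = 2 := by simp
  refine le_antisymm ?_ ?_
  · exact (LinearMap.finrank_le_finrank_of_injective (f := (Lat ρ).subtype)
      (Submodule.injective_subtype _)).trans h1.le
  · refine h1.ge.trans ?_
    let f : (Fin 2 → ℤ) →ₗ[ℤ] Lat ρ :=
      LinearMap.codRestrict (Lat ρ) (N • LinearMap.id) (smul_mem_lat ρ N hb)
    refine LinearMap.finrank_le_finrank_of_injective (f := f) fun v w hvw => ?_
    have h2 : N • v = N • w := congrArg Subtype.val hvw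
    funext i
    have h3 := congrFun h2 i
    rw [Pi.smul_apply, Pi.smul_apply, smul_eq_mul, smul_eq_mul] at h3
    exact mul_left_cancel₀ hN h3

include hN hb in
/-- A group of matrices in `GL₂(ℚ)` with bounded denominators is isomorphic to a subgroup of
`GL₂(ℤ)`. -/
theorem conj_int (hρ : Function.Injective ρ) :
    ∃ ψ : H →* Matrix (Fin 2) (Fin 2) ℤ, Function.Injective ψ := by
  have hfr := finrank_lat ρ N hN hb
  let b : Module.Basis (Fin 2) ℤ (Lat ρ) := Module.finBasisOfFinrankEq ℤ (Lat ρ) hfr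
  let P : Matrix (Fin 2) (Fin 2) ℚ := Matrix.of fun i j => ((b j : Fin 2 → ℤ) i : ℚ)
  let M : H → Matrix (Fin 2) (Fin 2) ℤ := fun h => LinearMap.toMatrix b b (actL ρ h)
  have hM1 : M 1 = 1 := by
    show LinearMap.toMatrix b b (actL ρ 1) = 1
    rw [actL_one, LinearMap.toMatrix_id]
  have hMm : ∀ g h, M (g * h) = M g * M h := by
    intro g h
    show LinearMap.toMatrix b b (actL ρ (g * h)) = _
    rw [actL_mul, LinearMap.toMatrix_comp b b b]
  refine ⟨{ toFun := M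
            map_one' := hM1
            map_mul' := hMm }, ?_⟩
  rw [injective_iff_map_eq_one]
  intro h hh
  have h1 : M h = 1 := hh
  have h2 : actL ρ h = LinearMap.id := by
    apply (LinearMap.toMatrix b b).injective
    rw [LinearMap.toMatrix_id]
    exact h1
  apply hρ
  rw [map_one]
  have h3 : ∀ (v : Fin 2 → ℤ) (i : Fin 2), (v i : ℚ) = ρ h i 0 * (v 0 : ℚ) + ρ h i 1 * (v 1 : ℚ) := by
    intro v i
    have h4 := actL_apply ρ h ⟨N • v, smul_mem_lat ρ N hb v⟩ i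
    rw [h2, LinearMap.id_apply] at h4
    have h5 : ((N • v) i : ℚ) = ρ h i 0 * ((N • v) 0 : ℚ) + ρ h i 1 * ((N • v) 1 : ℚ) := by
      exact_mod_cast h4
    rw [Pi.smul_apply, Pi.smul_apply, Pi.smul_apply, smul_eq_mul, smul_eq_mul, smul_eq_mul] at h5
    push_cast at h5
    have hN' : (N : ℚ) ≠ 0 := by exact_mod_cast hN
    apply mul_left_cancel₀ hN'
    linear_combination h5
  have e0 := fun i => h3 (Pi.single 0 1) i
  have e1 := fun i => h3 (Pi.single 1 1) i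
  refine ext2 ?_ ?_ ?_ ?_
  · have := e0 0
    simp at this
    rw [Matrix.one_apply_eq]
    linarith
  · have := e1 0
    simp at this
    rw [Matrix.one_apply_ne (by decide)]
    linarith
  · have := e0 1
    simp at this
    rw [Matrix.one_apply_ne (by decide)]
    linarith
  · have := e1 1
    simp at this
    rw [Matrix.one_apply_eq]
    linarith

end lattice

/-! ### The dichotomy -/

/-- STAB0 for `GL₂`. Let `A` be a subring of the field `K` with a homomorphism to `ℚ`, and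
`χ = ± 1` for all `χ` in `K` with `χ + χ⁻¹` in `ℤ`.  A torsionfree group of matrices in `GL₂(K)`
with entries in `A`, traces in `ℤ` and determinants `± 1` is commutative or isomorphic to a subgroup
of `GL₂(ℤ)`. -/
theorem stabGL {H : Type u} [Group H] (htf : ∀ (g : H) (n : ℕ), 0 < n → g ^ n = 1 → g = 1)
    {K : Type w} [Field K] (A : Subring K) (σ : A →+* ℚ)
    (hK : ∀ χ : K, χ ≠ 0 → (∃ t : ℤ, χ + χ⁻¹ = t) → χ = 1 ∨ χ = -1)
    (φ : H →* Matrix.GeneralLinearGroup (Fin 2) K) (hφ : Function.Injective φ)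
    (hA : ∀ h i j, (φ h : Matrix (Fin 2) (Fin 2) K) i j ∈ A)
    (ht : ∀ h, ∃ t : ℤ, Matrix.trace (φ h : Matrix (Fin 2) (Fin 2) K) = t)
    (hd : ∀ h, Matrix.det (φ h : Matrix (Fin 2) (Fin 2) K) = 1 ∨
      Matrix.det (φ h : Matrix (Fin 2) (Fin 2) K) = -1) :
    (∀ x y : H, x * y = y * x) ∨
      ∃ ψ : H →* Matrix.GeneralLinearGroup (Fin 2) ℤ, Function.Injective ψ := by
  obtain ⟨Φ, hΦ⟩ : ∃ Φ : H →* Matrix (Fin 2) (Fin 2) K,
      ∀ h, Φ h = (φ h : Matrix (Fin 2) (Fin 2) K) :=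
    ⟨(Units.coeHom _).comp φ, fun _ => rfl⟩
  have hinj : Function.Injective Φ := fun g h hgh => hφ (Units.ext (by rw [← hΦ, ← hΦ, hgh]))
  obtain ⟨Ψ, hΨ⟩ : ∃ Ψ : H →* Matrix (Fin 2) (Fin 2) A, ∀ h i j, (Ψ h i j : K) = Φ h i j := by
    refine ⟨{ toFun := fun h => Matrix.of fun i j => ⟨(φ h : Matrix (Fin 2) (Fin 2) K) i j, hA h i j⟩
              map_one' := ?_
              map_mul' := ?_ }, fun h i j => ?_⟩
    · have h1 : (φ 1 : Matrix (Fin 2) (Fin 2) K) = 1 := by rw [map_one]; rfl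
      have h2 : ∀ i j, (φ 1 : Matrix (Fin 2) (Fin 2) K) i j = (1 : Matrix (Fin 2) (Fin 2) K) i j :=
        fun i j => by rw [h1]
      refine ext2 ?_ ?_ ?_ ?_ <;> apply Subtype.ext <;> rw [Matrix.of_apply]
      · rw [Matrix.one_apply_eq]; exact (h2 0 0).trans (Matrix.one_apply_eq 0)
      · rw [Matrix.one_apply_ne (by decide)]; exact (h2 0 1).trans (Matrix.one_apply_ne (by decide))
      · rw [Matrix.one_apply_ne (by decide)]; exact (h2 1 0).trans (Matrix.one_apply_ne (by decide))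
      · rw [Matrix.one_apply_eq]; exact (h2 1 1).trans (Matrix.one_apply_eq 1)
    · intro g h
      have h1 : (φ (g * h) : Matrix (Fin 2) (Fin 2) K) =
        (φ g : Matrix (Fin 2) (Fin 2) K) * (φ h : Matrix (Fin 2) (Fin 2) K) := by
        rw [map_mul]; rfl
      ext i j
      rw [mulE, Matrix.of_apply, Subring.coe_add, Subring.coe_mul, Subring.coe_mul,
        Matrix.of_apply, Matrix.of_apply, Matrix.of_apply, Matrix.of_apply]
      show (φ (g * h) : Matrix (Fin 2) (Fin 2) K) i j = _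
      rw [h1, mulE]
    · rw [hΦ]
      rfl
  obtain ⟨ρ, hρ⟩ : ∃ ρ : H →* Matrix (Fin 2) (Fin 2) ℚ, ∀ h i j, ρ h i j = σ (Ψ h i j) :=
    ⟨((σ.mapMatrix : Matrix (Fin 2) (Fin 2) A →+* Matrix (Fin 2) (Fin 2) ℚ) : _ →* _).comp Ψ,
      fun _ _ _ => rfl⟩
  have trA : ∀ h, ((tr (Ψ h) : A) : K) = tr (Φ h) := fun h => by
    rw [tr, tr, Subring.coe_add, hΨ, hΨ]
  have trQ : ∀ h, tr (ρ h) = σ (tr (Ψ h)) := fun h => by rw [tr, tr, map_add, hρ, hρ]
  have dtA : ∀ h, ((dt (Ψ h) : A) : K) = dt (Φ h) := fun h => by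
    rw [dt, dt, AddSubgroupClass.coe_sub, Subring.coe_mul, Subring.coe_mul, hΨ, hΨ, hΨ, hΨ]
  have dtQ : ∀ h, dt (ρ h) = σ (dt (Ψ h)) := fun h => by
    rw [dt, dt, map_sub, map_mul, map_mul, hρ, hρ, hρ, hρ]
  have htK : ∀ h, ∃ t : ℤ, tr (Φ h) = t := fun h => by
    obtain ⟨t, h1⟩ := ht h
    exact ⟨t, by rw [← h1, ← hΦ, tr_eq]⟩
  have hdK : ∀ h, dt (Φ h) = 1 ∨ dt (Φ h) = -1 := fun h => by
    have := hd h
    rw [← hΦ, dt_eq] at this
    exact this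
  have iK : ∀ (a : A) (t : ℤ), (a : K) = t → a = t := fun a t h => by
    apply Subtype.ext
    rw [h]
    exact (map_intCast A.subtype t).symm
  have htA : ∀ h, ∃ t : ℤ, tr (Ψ h) = t := fun h => by
    obtain ⟨t, h1⟩ := htK h
    exact ⟨t, iK _ _ ((trA h).trans h1)⟩
  have htQ : ∀ h, ∃ t : ℤ, tr (ρ h) = t := fun h => by
    obtain ⟨t, h1⟩ := htA h
    exact ⟨t, by rw [trQ, h1, map_intCast]⟩
  have hσ : ∀ h : H, ∀ t : ℤ, tr (ρ h) = t → tr (Φ h) = t := by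
    intro h t h1
    obtain ⟨t', h2⟩ := htA h
    rw [trQ, h2, map_intCast] at h1
    have h3 : t' = t := by exact_mod_cast h1
    rw [← trA, h2, h3]
    exact map_intCast A.subtype t
  have h2K : (2 : K) ≠ 0 := by
    intro h
    have h1 : (2 : A) = 0 := Subtype.ext h
    have h2 := congrArg σ h1
    rw [map_zero, map_ofNat] at h2
    norm_num at h2
  by_cases hc : ∀ x y : H, tr (Φ (x * y * x⁻¹ * y⁻¹)) = 2
  · exact Or.inl fun x y => comm_of h2K htf Φ hinj htK hdK hK hc x y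
  right
  push Not at hc
  obtain ⟨x, y, hxy⟩ := hc
  have hxyQ : tr (ρ (x * y * x⁻¹ * y⁻¹)) ≠ 2 := by
    intro h0
    apply hxy
    have h1 := hσ _ 2 (by rw [h0]; norm_num)
    rw [h1]
    norm_num
  have dtK : ∀ h, dt (Φ h) ≠ 0 := fun h => left_ne_zero_of_mul_eq_one (dt_inv Φ h)
  have dtQ' : ∀ h, dt (ρ h) ≠ 0 := fun h => left_ne_zero_of_mul_eq_one (dt_inv ρ h)
  have hDK : dd (Φ x) (Φ y) ≠ 0 := by
    rw [dd_comm]
    exact mul_ne_zero (mul_ne_zero (dtK x) (dtK y)) (sub_ne_zero.2 (Ne.symm hxy))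
  have hDQ : dd (ρ x) (ρ y) ≠ 0 := by
    rw [dd_comm]
    exact mul_ne_zero (mul_ne_zero (dtQ' x) (dtQ' y)) (sub_ne_zero.2 (Ne.symm hxyQ))
  have hb : ∃ N : ℤ, N ≠ 0 ∧ ∀ h i j, ∃ m : ℤ, N * ρ h i j = m := by
    have b := fun i j => bounded ρ htQ x y hDQ i j
    obtain ⟨N, hN, n1, n2⟩ := Bd.common (b 0 0) (b 0 1)
    obtain ⟨M, hM, m1, m2⟩ := Bd.common (b 1 0) (b 1 1)
    have aux : ∀ (q : ℚ) (N M : ℤ), (∃ m : ℤ, N * q = m) → ∃ m : ℤ, (N * M : ℤ) * q = m := by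
      rintro q N M ⟨m, hm⟩
      exact ⟨M * m, by push_cast; rw [← hm]; ring⟩
    refine ⟨N * M, mul_ne_zero hN hM, fun h i j => ?_⟩
    fin_cases i <;> fin_cases j
    · exact aux _ _ _ (n1 h)
    · exact aux _ _ _ (n2 h)
    · rw [mul_comm N M]
      exact aux _ _ _ (m1 h)
    · rw [mul_comm N M]
      exact aux _ _ _ (m2 h)
  obtain ⟨N, hN, hb⟩ := hb
  have hρi : Function.Injective ρ := by
    rw [injective_iff_map_eq_one]
    intro h hh
    -- the traces of `h z` and `z` agree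
    have key : ∀ z : H, tr (Φ (h * z)) = tr (Φ z) := by
      intro z
      obtain ⟨t, h1⟩ := htQ z
      have h2 : tr (ρ (h * z)) = (t : ℚ) := by rw [map_mul, hh, one_mul, h1]
      rw [hσ _ t h2, hσ _ t h1]
    have k1 := key 1
    have k2 := key x
    have k3 := key y
    have k4 := key (x * y)
    rw [mul_one, map_one, tr_one, tr] at k1
    rw [map_mul, tr, tr, mulE (Φ h), mulE (Φ h)] at k2 k3 k4
    rw [map_mul] at k4
    obtain ⟨r1, r2, r3, r4⟩ := nondeg (Φ x) (Φ y) hDK (Φ h 0 0 - 1) (Φ h 0 1) (Φ h 1 0)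
      (Φ h 1 1 - 1) (by linear_combination k1) (by linear_combination k2)
      (by linear_combination k3) (by linear_combination k4)
    apply hinj
    rw [map_one]
    refine ext2 ?_ ?_ ?_ ?_
    · rw [Matrix.one_apply_eq]; linear_combination r1
    · rw [Matrix.one_apply_ne (by decide), r2]
    · rw [Matrix.one_apply_ne (by decide), r3]
    · rw [Matrix.one_apply_eq]; linear_combination r4
  obtain ⟨ψ, hψ⟩ := conj_int ρ N hN hb hρi
  exact ⟨ψ.toHomUnits, fun g h hgh => hψ (congrArg Units.val hgh)⟩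

end Pool.Agent.NegK.NT.H22.G
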